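import Pool.Agent.WAP.StmtsC
import Pool.Agent.WAP.StmtsT
import Pool.Agent.Helper32_WAP.Add

set_option autoImplicit false

namespace Pool.Agent.WAP.H13

open Pool.Agent.WAP Pool.Agent.WAP.C Classical

/-- near the point at infinity the X-coordinate is large -/
theorem large_of_nO {F : Type} [NormedField F] {r : ℝ} {X Y : F} (he : Y ^ 2 = X ^ 3 - X)
    (hX : 1 < ‖X‖) (hr : ‖X / Y‖ ≤ r) : 1 ≤ 2 * r ^ 2 * ‖X‖ := by
  have h0 : (0 : ℝ) < ‖X‖ := by linarith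
  have hY : Y ≠ 0 := by
    intro h
    rw [h] at he
    have h1 : X ^ 3 = X := by linear_combination (-1) * he
    have h2 : ‖X‖ ^ 3 = ‖X‖ := by rw [← norm_pow, h1]
    nlinarith [mul_pos h0 (sub_pos.2 hX), mul_pos (mul_pos h0 (sub_pos.2 hX)) (by linarith : (0:ℝ) < ‖X‖ + 1)]
  have h1 : ‖X‖ ^ 2 ≤ r ^ 2 * ‖Y‖ ^ 2 := by
    have h2 : ‖X‖ = ‖X / Y‖ * ‖Y‖ := by
      rw [← norm_mul, div_mul_cancel₀ _ hY]
    rw [h2, mul_pow]
    exact mul_le_mul_of_nonneg_right (pow_le_pow_left₀ (norm_nonneg _) hr 2) (by positivity)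
  have h3 : ‖Y‖ ^ 2 ≤ 2 * ‖X‖ ^ 3 := by
    rw [← norm_pow, he]
    refine (norm_sub_le _ _).trans ?_
    rw [norm_pow]
    have h4 : ‖X‖ ≤ ‖X‖ ^ 3 := by
      nlinarith [mul_pos (mul_pos h0 (sub_pos.2 hX)) (by linarith : (0:ℝ) < ‖X‖ + 1)]
    linarith
  have h5 : ‖X‖ ^ 2 ≤ r ^ 2 * (2 * ‖X‖ ^ 3) :=
    h1.trans (mul_le_mul_of_nonneg_left h3 (sq_nonneg r))
  have h6 : 0 ≤ ‖X‖ ^ 2 * (2 * r ^ 2 * ‖X‖ - 1) := by nlinarith
  have h7 : 0 ≤ 2 * r ^ 2 * ‖X‖ - 1 := nonneg_of_mul_nonneg_right h6 (by positivity)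
  linarith

theorem cct (gdf : GdfStmt) (trx : TrxStmt) : CctStmt := by
  intro F _ _ hC T ε hT hε
  obtain ⟨N, hN⟩ := trx F (gdf F (Or.inr hC)) 1 one_ne_zero T hT ε hε
  obtain ⟨M, hM⟩ : ∃ M : ℝ, M = |N| + 1 := ⟨_, rfl⟩
  have hM1 : 1 ≤ M := by rw [hM]; linarith [abs_nonneg N]
  have hNM : N < M := by rw [hM]; linarith [le_abs_self N]
  refine ⟨1 / (2 * M), by positivity, fun D hD => ?_⟩
  have hB : Big N (-D) := by
    rcases hD with h | ⟨h1, h2⟩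
    · left
      rw [h, neg_zero]
    · right
      rw [H32.cX_neg, div_one]
      have he : cY D ^ 2 = cX D ^ 3 - cX D := by
        rw [H32.eqn]
        ring
      have h3 := large_of_nO he h1 h2
      have h4 : 2 * (1 / (2 * M)) ^ 2 * ‖cX D‖ = ‖cX D‖ / (2 * M ^ 2) := by
        field_simp
      rw [h4, le_div_iff₀ (by positivity)] at h3
      nlinarith
  have h5 := hN (-D) hB
  rw [sub_eq_add_neg]
  exact h5

end Pool.Agent.WAP.H13
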