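import Pool.Agent.WAP.StmtsC
import Pool.Agent.Helper32_WAP.Add

set_option autoImplicit false

namespace Pool.Agent.WAP.H13

open Pool.Agent.WAP Pool.Agent.WAP.C Classical

/-- large X-coordinate implies near the point at infinity -/
theorem nO_of_large {F : Type} [NormedField F] {r M : ℝ} {X Y : F} (hr : 0 < r)
    (he : Y ^ 2 = X ^ 3 - X) (hM : 2 ≤ M) (hM2 : 2 ≤ r ^ 2 * M) (hX : M ≤ ‖X‖) :
    1 < ‖X‖ ∧ ‖X / Y‖ ≤ r := by
  obtain ⟨a, ha⟩ : ∃ a, a = ‖X‖ := ⟨_, rfl⟩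
  rw [← ha] at hX ⊢
  have h1 : a ^ 3 / 2 ≤ ‖Y‖ ^ 2 := by
    rw [← norm_pow, he]
    have h2 := norm_sub_norm_le (X ^ 3) X
    rw [norm_pow, ← ha] at h2
    nlinarith [mul_nonneg (by linarith : (0:ℝ) ≤ a) (by nlinarith : (0:ℝ) ≤ a ^ 2 - 2)]
  have h3 : a ^ 2 ≤ (r * ‖Y‖) ^ 2 := by
    rw [mul_pow]
    have h4 : 2 ≤ r ^ 2 * a := hM2.trans (mul_le_mul_of_nonneg_left hX (sq_nonneg r))
    have h5 : r ^ 2 * (a ^ 3 / 2) ≤ r ^ 2 * ‖Y‖ ^ 2 := mul_le_mul_of_nonneg_left h1 (sq_nonneg r)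
    nlinarith [mul_nonneg (sq_nonneg a) (sub_nonneg.2 h4)]
  have h6 : a ≤ r * ‖Y‖ := abs_le_of_sq_le_sq' h3 (by positivity) |>.2
  refine ⟨by linarith, ?_⟩
  have hY : 0 < ‖Y‖ := by
    by_contra h
    have h7 : ‖Y‖ = 0 := le_antisymm (not_lt.1 h) (norm_nonneg _)
    rw [h7, mul_zero] at h6
    linarith
  rw [norm_div, ← ha, div_le_iff₀ hY]
  exact h6

/-- the slope is large -/
theorem cX_large {F : Type} [NormedField F] {l X X' : F} {η B M : ℝ} (hη : 0 < η) (hl : 1 / 20 ≤ ‖l‖ * η) (hX : ‖X‖ ≤ B) (hX' : ‖X'‖ ≤ B)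
    (hη2 : 400 * η ^ 2 * (M + 2 * B) ≤ 1) : M ≤ ‖l ^ 2 - X - X'‖ := by
  have h1 : ‖l‖ ^ 2 - B - B ≤ ‖l ^ 2 - X - X'‖ := by
    have h2 := norm_sub_norm_le (l ^ 2 - X) X'
    have h3 := norm_sub_norm_le (l ^ 2) X
    rw [norm_pow] at h3
    linarith
  have h4 : 1 / 400 ≤ ‖l‖ ^ 2 * η ^ 2 := by
    have h5 : (1 / 20 : ℝ) ^ 2 ≤ (‖l‖ * η) ^ 2 := pow_le_pow_left₀ (by norm_num) hl 2
    rw [mul_pow] at h5
    linarith [h5, (by norm_num : (1 / 20 : ℝ) ^ 2 = 1 / 400)]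
  have h6 : η ^ 2 * (M + 2 * B) ≤ η ^ 2 * ‖l‖ ^ 2 := by linarith
  have h7 : M + 2 * B ≤ ‖l‖ ^ 2 := le_of_mul_le_mul_left h6 (by positivity)
  linarith

theorem cdf (cxf : CxfStmt) : CdfStmt := by
  intro F _ _ hC B0 r hr
  obtain ⟨⟨hnat, _⟩, _⟩ := cxf F hC
  have n2 : ‖(2 : F)‖ = 2 := by have := hnat 2; simpa using this
  have n3 : ‖(3 : F)‖ = 3 := by have := hnat 3; simpa using this
  have h2F : (2 : F) ≠ 0 := by
    intro h
    rw [h, norm_zero] at n2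
    norm_num at n2
  -- the constants
  obtain ⟨B, hBd⟩ : ∃ B : ℝ, B = |B0| := ⟨_, rfl⟩
  have hB : 0 ≤ B := by rw [hBd]; exact abs_nonneg _
  have hB0 : B0 ≤ B := by rw [hBd]; exact le_abs_self _
  obtain ⟨M, hMd⟩ : ∃ M : ℝ, M = 2 + 2 / r ^ 2 := ⟨_, rfl⟩
  have hM : 2 ≤ M := by rw [hMd]; have : 0 < 2 / r ^ 2 := by positivity
                        linarith
  have hM2 : 2 ≤ r ^ 2 * M := by
    rw [hMd, mul_add]
    have : r ^ 2 * (2 / r ^ 2) = 2 := by field_simp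
    rw [this]
    nlinarith [sq_nonneg r]
  obtain ⟨η, hηd⟩ : ∃ η : ℝ, η = 1 / (400 * (M + 2 * B + 1)) := ⟨_, rfl⟩
  have hη : 0 < η := by rw [hηd]; positivity
  have hηe : 400 * (M + 2 * B + 1) * η = 1 := by rw [hηd]; field_simp
  have hη1 : η ≤ 1 / 400 := by nlinarith
  have hη2 : 400 * η ^ 2 * (M + 2 * B) ≤ 1 := by nlinarith
  have hη3 : 3 * B * η + η ^ 2 ≤ 1 / 20 := by nlinarith
  refine ⟨η, hη, ?_⟩
  intro P P' hP hP' hne hX hX' hdX hdY
  have hX := hX.trans hB0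
  have hX' := hX'.trans hB0
  have e1 : cY P ^ 2 = cX P ^ 3 - cX P := by rw [H32.eqn]; ring
  have e2 : cY P' ^ 2 = cX P' ^ 3 - cX P' := by rw [H32.eqn]; ring
  -- `Y` and `3 X ^ 2 - 1` are not both small
  have star : ‖cY P‖ < 1 / 10 → 1 / 10 ≤ ‖3 * cX P ^ 2 - 1‖ := by
    intro hy
    by_contra hcon
    push Not at hcon
    have h1 : 9 / 10 ≤ 3 * ‖cX P ^ 2‖ := by
      rw [← n3, ← norm_mul]
      have h2 := norm_sub_norm_le (1 : F) (3 * cX P ^ 2)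
      rw [norm_one, norm_sub_rev] at h2
      linarith
    have h3 : 19 / 10 ≤ 3 * ‖cX P ^ 2 - 1‖ := by
      have h4 : 3 * ‖cX P ^ 2 - 1‖ = ‖2 - (3 * cX P ^ 2 - 1)‖ := by
        rw [← n3, ← norm_mul, norm_sub_rev (2 : F)]
        congr 1
        ring
      have h5 := norm_sub_norm_le (2 : F) (3 * cX P ^ 2 - 1)
      rw [n2] at h5
      rw [h4]
      linarith
    have h6 : (‖cY P‖ ^ 2) ^ 2 = ‖cX P ^ 2‖ * ‖cX P ^ 2 - 1‖ ^ 2 := by
      rw [← norm_pow, e1, ← norm_pow, ← norm_pow, ← norm_mul]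
      congr 1
      ring
    have h7 : (‖cY P‖ ^ 2) ^ 2 ≤ (1 / 100) ^ 2 := by
      apply pow_le_pow_left₀ (by positivity)
      have : ‖cY P‖ ^ 2 ≤ (1 / 10) ^ 2 := pow_le_pow_left₀ (norm_nonneg _) hy.le 2
      linarith [(by norm_num : ((1 : ℝ) / 10) ^ 2 = 1 / 100)]
    have h8 : (19 / 30 : ℝ) ^ 2 ≤ ‖cX P ^ 2 - 1‖ ^ 2 :=
      pow_le_pow_left₀ (by norm_num) (by linarith) 2
    have h9 : (3 / 10 : ℝ) * (19 / 30) ^ 2 ≤ ‖cX P ^ 2‖ * ‖cX P ^ 2 - 1‖ ^ 2 :=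
      mul_le_mul (by linarith) h8 (by positivity) (norm_nonneg _)
    rw [← h6] at h9
    norm_num at h7 h9
    linarith
  have fin : ∀ Q : Pt (1 : F), M ≤ ‖cX Q‖ → nO r Q := fun Q hQ =>
    Or.inr (nO_of_large hr (by rw [H32.eqn]; ring) hM hM2 hQ)
  by_cases hxx : cX P = cX P'
  · have hPn : P = -P' := (H32.eq_or_neg hP hP' hxx).resolve_left hne
    have hP2 : P' = -P := by rw [hPn, neg_neg]
    have hYY : cY P' = -cY P := by rw [hP2, H32.cY_neg]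
    have hy0 : cY P ≠ 0 := by
      intro h
      apply hne
      exact H32.ext_pt hP hP' hxx (by rw [hYY, h, neg_zero])
    have hd : ‖2 * cY P‖ < η := by
      have : (2 : F) * cY P = cY P - cY P' := by rw [hYY]; ring
      rw [this]
      exact hdY
    have hysm : ‖cY P‖ < 1 / 10 := by
      rw [norm_mul, n2] at hd
      linarith
    have h3 := star hysm
    obtain ⟨_, h4, _⟩ := H32.add_self (P := P) h2F hy0
    have h5 : P - P' = P + P := by rw [hP2, sub_neg_eq_add]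
    rw [h5]
    apply fin
    have e3 : ((3 * cX P ^ 2 - 1 ^ 2) / (2 * cY P)) ^ 2 - 2 * cX P =
        ((3 * cX P ^ 2 - 1) / (2 * cY P)) ^ 2 - cX P - cX P := by
      rw [one_pow]
      ring
    rw [h4, e3]
    refine cX_large hη ?_ hX hX hη2
    rw [norm_div]
    have hpos : 0 < ‖2 * cY P‖ := norm_pos_iff.2 (mul_ne_zero h2F hy0)
    rw [div_mul_eq_mul_div, le_div_iff₀ hpos]
    nlinarith
  · have hd : cX P - cX P' ≠ 0 := sub_ne_zero.2 hxx
    obtain ⟨_, h4, _⟩ := H32.add_ne (P := P) (Q := -P') hP (neg_ne_zero.2 hP')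
      (by rw [H32.cX_neg]; exact hxx)
    rw [sub_eq_add_neg]
    apply fin
    rw [h4, H32.cX_neg, H32.cY_neg, sub_neg_eq_add]
    refine cX_large hη ?_ hX hX' hη2
    have hpos : 0 < ‖cX P - cX P'‖ := norm_pos_iff.2 hd
    by_cases hys : ‖cY P‖ < 1 / 10
    · have h3 := star hys
      have h5 : (cY P - cY P') * (cY P + cY P') =
          (cX P - cX P') * (cX P ^ 2 + cX P * cX P' + cX P' ^ 2 - 1) := by
        linear_combination e1 - e2
      have h6 : 1 / 20 ≤ ‖cX P ^ 2 + cX P * cX P' + cX P' ^ 2 - 1‖ := by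
        have e : cX P ^ 2 + cX P * cX P' + cX P' ^ 2 - 1 = (3 * cX P ^ 2 - 1) -
            (3 * cX P * (cX P - cX P') - (cX P - cX P') ^ 2) := by ring
        rw [e]
        have h7 := norm_sub_norm_le (3 * cX P ^ 2 - 1)
          (3 * cX P * (cX P - cX P') - (cX P - cX P') ^ 2)
        have h8 : ‖3 * cX P * (cX P - cX P') - (cX P - cX P') ^ 2‖ ≤ 3 * B * η + η ^ 2 := by
          refine (norm_sub_le _ _).trans (add_le_add ?_ ?_)
          · rw [norm_mul, norm_mul, n3]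
            exact mul_le_mul (by linarith) hdX.le (norm_nonneg _) (by positivity)
          · rw [norm_pow]
            exact pow_le_pow_left₀ (norm_nonneg _) hdX.le 2
        linarith
      have h9 : ‖cY P - cY P'‖ * ‖cY P + cY P'‖ =
          ‖cX P - cX P'‖ * ‖cX P ^ 2 + cX P * cX P' + cX P' ^ 2 - 1‖ := by
        rw [← norm_mul, h5, norm_mul]
      rw [norm_div, div_mul_eq_mul_div, le_div_iff₀ hpos]
      have h10 : ‖cY P - cY P'‖ * ‖cY P + cY P'‖ ≤ η * ‖cY P + cY P'‖ :=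
        mul_le_mul_of_nonneg_right hdY.le (norm_nonneg _)
      have h11 : 1 / 20 * ‖cX P - cX P'‖ ≤
          ‖cX P - cX P'‖ * ‖cX P ^ 2 + cX P * cX P' + cX P' ^ 2 - 1‖ := by
        rw [mul_comm]
        exact mul_le_mul_of_nonneg_left h6 hpos.le
      linarith [mul_comm η ‖cY P + cY P'‖]
    · push Not at hys
      have h6 : 1 / 20 ≤ ‖cY P + cY P'‖ := by
        have e : cY P + cY P' = 2 * cY P - (cY P - cY P') := by ring
        rw [e]
        have h7 := norm_sub_norm_le (2 * cY P) (cY P - cY P')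
        rw [norm_mul, n2] at h7
        linarith
      rw [norm_div, div_mul_eq_mul_div, le_div_iff₀ hpos]
      nlinarith

end Pool.Agent.WAP.H13
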