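import Pool.Agent.Helper13_WAP.SAP

set_option autoImplicit false

namespace Pool.Agent.WAP.H13

open Pool.Agent.WAP

theorem run_onU {F : Type} [Field F] [Algebra GaussianInt F] : ∀ (L : List Letter)
    (z z' : F × F × F), Run L z z' → OnU z ∧ OnU z'
  | [], z, z', h => by
    obtain ⟨h1, h2⟩ := h
    rw [h2]
    exact ⟨h1, h1⟩
  | l :: L, z, z', h => by
    obtain ⟨z1, h1, h2⟩ := h
    exact ⟨h1.1, (run_onU L z1 z' h2).2⟩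

theorem fin (ind : IndStmt) (apo : ApoStmt) (apt : AptStmt) (cxd : CxdStmt) (crt : CrtStmt)
    (ruc : RucStmt) (rud : RudStmt) (rub : RubStmt) (bck : BckStmt) (fn : FunStmt) : FinStmt := by
  classical
  intro ι F _ _ ϖ C _ _ K _ _ σ σC hfam hC S hwa V VC hV hVC hVC2
  have lc : ∀ v, IsLC (F v) := fun v => Or.inl ⟨ϖ v, hfam.1 v⟩
  have lcC : IsLC C := Or.inr hC
  have h2C : (2 : C) ≠ 0 := by
    obtain ⟨s, _⟩ := hC
    intro h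
    have h1 := congrArg s h
    rw [map_zero, map_ofNat] at h1
    exact two_ne_zero h1
  obtain ⟨L, hok, hL⟩ := ind ι F ϖ hfam S V hV
  -- finite places
  have h1 : ∀ v, ∃ (O : Set (F v × F v × F v)) (k0 : GaussianInt) (N : ℕ) (T : Set (F v)), v ∈ S →
      (∀ z1 ∈ O, OnU z1 → ∃ z2 ∈ V v, Run L z1 z2) ∧ IsOpen T ∧ T.Nonempty ∧
        ∀ (k : GaussianInt) (τ : F v), ϖ v ^ N ∣ k - k0 → τ ∈ T → ck k τ ∈ O ∧ OnU (ck k τ) := by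
    intro v
    by_cases hv : v ∈ S
    · obtain ⟨u, w, hu, hw, hr⟩ := hL v hv
      obtain ⟨O, hO, huO, h3⟩ := ruc (F v) (lc v) L u w hr (V v) (hV v hv).1 hw
      have happr : Appr (F v) (ϖ v) u := by
        by_cases h2 : ϖ v ∣ 2
        · exact apt (F v) (ϖ v) (hfam.1 v) h2 u (hu.1 h2)
        · exact apo (F v) (ϖ v) (hfam.1 v) h2 u (hu.2 h2)
      obtain ⟨k0, N, T, hT, hT2, h4⟩ := happr O hO huO
      exact ⟨O, k0, N, T, fun _ => ⟨h3, hT, hT2, h4⟩⟩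
    · exact ⟨∅, 0, 0, ∅, fun h => absurd h hv⟩
  choose O kv N T hO using h1
  obtain ⟨k0, hk0⟩ := crt ι ϖ S N kv (fun v _ => (hfam.1 v).prime)
    (fun v _ w _ hne => hfam.2 v w hne)
  have hm : (∏ v ∈ S, ϖ v ^ N v) ≠ 0 :=
    Finset.prod_ne_zero_iff.2 fun v _ => pow_ne_zero _ (hfam.1 v).prime.ne_zero
  -- the complex place
  obtain ⟨z, z', hz', hrz⟩ := (rud C lcC L hok VC hVC hVC2).2
  obtain ⟨W, hW, hzW, hWr⟩ := ruc C lcC L z z' hrz VC hVC hz'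
  obtain ⟨k, TC, hk, hTC, hTC2, hTCk⟩ := cxd C hC W hW ⟨z, hzW, (run_onU L z z' hrz).1⟩ k0
    (∏ v ∈ S, ϖ v ^ N v) hm
  -- the point
  obtain ⟨τ, hτ, hτC⟩ := hwa T TC (fun v hv => ⟨(hO v hv).2.1, (hO v hv).2.2.1⟩) hTC hTC2
  have hbC : bc σC (ck k τ) = ck k (σC τ) := bck K C σC h2C k τ
  obtain ⟨hc1, hc2⟩ := hTCk (σC τ) hτC
  obtain ⟨wC, hwC, hrC⟩ := hWr _ hc1 hc2
  rw [← hbC] at hrC
  obtain ⟨z1, hz1, hz1C⟩ := rub K C σC h2C L (ck k τ) wC hrC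
  refine ⟨z1, (run_onU L _ z1 hz1).2, fun v hv => ?_, by rw [hz1C]; exact hwC⟩
  have hb : bc (σ v) (ck k τ) = ck k (σ v τ) := bck K (F v) (σ v) (two_ne (hfam.1 v)) k τ
  obtain ⟨h3, _, _, h4⟩ := hO v hv
  have hdv : ϖ v ^ N v ∣ k - kv v := by
    have h5 : ϖ v ^ N v ∣ k - k0 := (Finset.dvd_prod_of_mem (fun v => ϖ v ^ N v) hv).trans hk
    have h6 := dvd_add h5 (hk0 v hv)
    have e : k - k0 + (k0 - kv v) = k - kv v := by ring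
    rwa [e] at h6
  obtain ⟨h7, h8⟩ := h4 k (σ v τ) hdv (hτ v hv)
  obtain ⟨w, hw, hr⟩ := h3 _ h7 h8
  rw [← hb] at hr
  obtain ⟨z2, hz2, hz2v⟩ := rub K (F v) (σ v) (two_ne (hfam.1 v)) L (ck k τ) w hr
  rw [fn K L (ck k τ) z1 z2 hz1 hz2, hz2v]
  exact hw

end Pool.Agent.WAP.H13
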