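import Pool.Agent.WAP.StmtsI

set_option autoImplicit false

namespace Pool.Agent.WAP.H13

open Pool.Agent.WAP

/-- the primes dividing 2 are associated to `1 + i` -/
theorem assoc_lam {ϖ : GaussianInt} (hp : Prime ϖ) (h2 : ϖ ∣ 2) : Associated ϖ lam := by
  have h1 : (2 : GaussianInt) ∣ lam ^ 2 := ⟨⟨0, 1⟩, by
    unfold lam
    ext <;> simp [pow_two]⟩
  have h3 : ϖ ∣ lam := hp.dvd_of_dvd_pow (h2.trans h1)
  obtain ⟨t, ht⟩ := h3
  have hn : ϖ.norm * t.norm = 2 := by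
    rw [← Zsqrtd.norm_mul, ← ht]
    decide
  have hu : t.norm.natAbs = 1 := by
    have h4 : ϖ.norm.natAbs ≠ 1 := fun h => hp.not_isUnit ((Zsqrtd.norm_eq_one_iff).1 h)
    have h5 : ϖ.norm.natAbs * t.norm.natAbs = 2 := by
      rw [← Int.natAbs_mul, hn]
      rfl
    have h6 : ϖ.norm.natAbs ∣ 2 := ⟨_, h5.symm⟩
    rcases (Nat.dvd_prime Nat.prime_two).1 h6 with h7 | h7
    · exact absurd h7 h4
    · rw [h7] at h5
      omega
  obtain ⟨s, hs⟩ := (Zsqrtd.norm_eq_one_iff).1 hu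
  exact ⟨s, by rw [hs, ht]⟩

theorem ind (mst : MstStmt) (bat : BatStmt) (ruc : RucStmt) (rud : RudStmt) (app : AppStmt)
    (rgo : RgoStmt) : IndStmt := by
  classical
  intro ι F _ _ ϖ hfam S
  have lc : ∀ v, IsLC (F v) := fun v => Or.inl ⟨ϖ v, hfam.1 v⟩
  have regopen : ∀ (v : ι) (u : F v × F v × F v), Reg F ϖ v u →
      ∃ O : Set (F v × F v × F v), IsOpen O ∧ u ∈ O ∧ ∀ z1 ∈ O, OnU z1 → Reg F ϖ v z1 := by
    intro v u hu
    obtain ⟨h1, h2⟩ := rgo (F v) (ϖ v) (hfam.1 v)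
    by_cases hv : ϖ v ∣ 2
    · obtain ⟨O, hO, huO, hz⟩ := h2 u (hu.1 hv)
      exact ⟨O, hO, huO, fun z1 h3 h4 => ⟨fun _ => hz z1 h3 h4, fun h => absurd hv h⟩⟩
    · obtain ⟨O, hO, huO, hz⟩ := h1 u (hu.2 hv)
      exact ⟨O, hO, huO, fun z1 h3 h4 => ⟨fun h => absurd h hv, fun _ => hz z1 h3 h4⟩⟩
  induction S using Finset.strongInduction with
  | H S ih =>
    intro V hV
    by_cases hall : ∀ v ∈ S, ϖ v ∣ 2
    · rcases S.eq_empty_or_nonempty with hS | ⟨v, hv⟩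
      · refine ⟨[], by simp, fun v hv => ?_⟩
        rw [hS] at hv
        simp at hv
      · obtain ⟨L, u, w, hu, hw, hr⟩ := bat (F v) (ϖ v) (hfam.1 v) (hall v hv) (V v) (hV v hv).1
          (hV v hv).2
        refine ⟨L, ((app (F v) L [] u w).2 hr).2.2, fun v' hv' => ?_⟩
        have e : v' = v := by
          by_contra hne
          exact hfam.2 v' v hne ((assoc_lam (hfam.1 v').prime (hall v' hv')).trans
            (assoc_lam (hfam.1 v).prime (hall v hv)).symm)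
        subst e
        exact ⟨u, w, ⟨fun _ => hu, fun h => absurd (hall _ hv') h⟩, hw, hr⟩
    · push Not at hall
      obtain ⟨v0, hv0, hv02⟩ := hall
      obtain ⟨q, hq, hqmax⟩ := Finset.exists_max_image (S.filter fun v => ¬ ϖ v ∣ 2)
        (fun v => (ϖ v).norm) ⟨v0, Finset.mem_filter.2 ⟨hv0, hv02⟩⟩
      obtain ⟨hqS, hq2⟩ := Finset.mem_filter.1 hq
      have hsub : S.erase q ⊂ S := Finset.erase_ssubset hqS
      obtain ⟨L0, hok0, hL0⟩ := ih (S.erase q) hsub V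
        (fun v hv => hV v (Finset.mem_of_mem_erase hv))
      -- the place q
      obtain ⟨z, z', hz', hrz⟩ := (rud (F q) (lc q) L0 hok0 (V q) (hV q hqS).1 (hV q hqS).2).2
      obtain ⟨W, hW, hzW, hWr⟩ := ruc (F q) (lc q) L0 z z' hrz (V q) (hV q hqS).1 hz'
      -- the other places
      have h1 : ∀ v, ∃ (u : F v × F v × F v) (O : Set (F v × F v × F v)), v ∈ S.erase q →
          OnU u ∧ IsOpen O ∧ u ∈ O ∧ (∀ z1 ∈ O, OnU z1 → Reg F ϖ v z1) ∧
            ∀ z1 ∈ O, OnU z1 → ∃ z2 ∈ V v, Run L0 z1 z2 := by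
        intro v
        by_cases hv : v ∈ S.erase q
        · obtain ⟨u, w, hu, hw, hr⟩ := hL0 v hv
          have hVv := hV v (Finset.mem_of_mem_erase hv)
          obtain ⟨O1, hO1, huO1, h3⟩ := ruc (F v) (lc v) L0 u w hr (V v) hVv.1 hw
          obtain ⟨O2, hO2, huO2, h4⟩ := regopen v u hu
          exact ⟨u, O1 ∩ O2, fun _ => ⟨((app (F v) L0 [] u w).2 hr).1, hO1.inter hO2,
            ⟨huO1, huO2⟩, fun z1 hz1 => h4 z1 hz1.2, fun z1 hz1 => h3 z1 hz1.1⟩⟩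
        · exact ⟨(0, 0, 0), ∅, fun h => absurd h hv⟩
      choose u O hO using h1
      obtain ⟨L1, hok1, hS1, zq, hzq, wq, hwq, hrq⟩ := mst ι F ϖ (S.erase q) q hfam
        (Finset.notMem_erase q S) hq2 (fun v hv => by
          by_cases h2 : ϖ v ∣ 2
          · exact Or.inl h2
          · exact Or.inr (hqmax v (Finset.mem_filter.2 ⟨Finset.mem_of_mem_erase hv, h2⟩)))
        u O (fun v hv => ⟨(hO v hv).1, (hO v hv).2.1, (hO v hv).2.2.1⟩) W hW
        ⟨z, hzW, ((app (F q) L0 [] z z').2 hrz).1⟩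
      refine ⟨L1 ++ L0, fun l hl => ?_, fun v hv => ?_⟩
      · rcases List.mem_append.1 hl with h | h
        · exact hok1 l h
        · exact hok0 l h
      · by_cases hvq : v = q
        · subst hvq
          obtain ⟨w2, hw2, hr2⟩ := hWr wq hwq ((app (F v) L1 [] zq wq).2 hrq).2.1
          exact ⟨zq, w2, ⟨fun h => absurd h hq2, fun _ => hzq⟩, hw2,
            (app (F v) L1 L0 zq w2).1.2 ⟨wq, hrq, hr2⟩⟩
        · have hv' : v ∈ S.erase q := Finset.mem_erase.2 ⟨hvq, hv⟩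
          obtain ⟨u', hu', w, hw, hr⟩ := hS1 v hv'
          obtain ⟨h5, h6, _⟩ := (app (F v) L1 [] u' w).2 hr
          obtain ⟨_, _, _, h7, h8⟩ := hO v hv'
          obtain ⟨w2, hw2, hr2⟩ := h8 w hw h6
          exact ⟨u', w2, h7 u' hu' h5, hw2, (app (F v) L1 L0 u' w2).1.2 ⟨w, hr, hr2⟩⟩

end Pool.Agent.WAP.H13
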