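import Pool.Agent.WAP.StmtsI

set_option autoImplicit false

namespace Pool.Agent.WAP.H13

open Pool.Agent.WAP

/-- a local field of our kind has characteristic different from 2 -/
theorem two_ne {F : Type} [NormedField F] [Algebra GaussianInt F] {ϖ : GaussianInt}
    (h : IsLoc F ϖ) : (2 : F) ≠ 0 := by
  intro h2
  obtain ⟨φ, hφ⟩ : ∃ φ : GaussianInt →+* F, φ = algebraMap GaussianInt F := ⟨_, rfl⟩
  obtain ⟨I, hI⟩ : ∃ I : GaussianInt, I = ⟨0, 1⟩ := ⟨_, rfl⟩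
  have hII : I * I = -1 := by
    rw [hI]
    ext <;> simp
  have hdec : ϖ = (ϖ.re : GaussianInt) + (ϖ.im : GaussianInt) * I := by
    rw [hI]
    ext <;> simp
  have h1 : φ I * φ I = -1 := by
    rw [← map_mul, hII, map_neg, map_one]
  have h3 : (φ I - 1) ^ 2 = 0 := by linear_combination h1 - (φ I) * h2
  have h4 : φ I = 1 := by
    have := pow_eq_zero_iff (two_ne_zero) |>.1 h3
    linear_combination this
  have h5 : φ ϖ = ((ϖ.re + ϖ.im : ℤ) : F) := by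
    have h6 : φ ϖ = φ ((ϖ.re : GaussianInt) + (ϖ.im : GaussianInt) * I) := congrArg φ hdec
    rw [h6, map_add, map_mul, h4, map_intCast, map_intCast]
    push_cast
    ring
  rcases Int.even_or_odd (ϖ.re + ϖ.im) with ⟨k, hk⟩ | ⟨k, hk⟩
  · have h6 : φ ϖ = 0 := by
      rw [h5, hk]
      push_cast
      linear_combination (k : F) * h2
    have h7 := h.uni
    rw [← hφ, h6, norm_zero] at h7
    exact lt_irrefl _ h7
  · have h6 : φ ϖ = 1 := by
      rw [h5, hk]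
      push_cast
      linear_combination (k : F) * h2
    have h7 := (h.lt_one ϖ).2 dvd_rfl
    rw [← hφ, h6, norm_one] at h7
    exact lt_irrefl _ h7

theorem sap (nqt : NqtStmt) (cmp : CmpStmt) (egn : EgnStmt) : SapStmt := by
  intro ι F _ _ ϖ S ϖq hloc hq hq2 hna hnorm u O hu a b c e hd N
  -- common multiple of the local conditions
  have com : ∀ (w : ∀ v, F v × F v × F v) (O : ∀ v, Set (F v × F v × F v)),
      (∀ v ∈ S, OnU (w v) ∧ IsOpen (O v) ∧ w v ∈ O v) →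
      ∃ E : GaussianInt, ¬ ϖq ∣ E ∧ ∀ n : GaussianInt, E ∣ n → ∀ v ∈ S,
        (∃ z' ∈ O v, Step (.act 1 n 0 1) (w v) z') ∧ (∃ z' ∈ O v, Step (.act 1 0 n 1) (w v) z') := by
    intro w O hw
    have h1 : ∀ v, ∃ e : GaussianInt, v ∈ S → (¬ ϖq ∣ e ∧ ∀ n : GaussianInt, e ∣ n →
        (∃ z' ∈ O v, Step (.act 1 n 0 1) (w v) z') ∧
          (∃ z' ∈ O v, Step (.act 1 0 n 1) (w v) z')) := by
      intro v
      by_cases hv : v ∈ S
      · obtain ⟨e, he⟩ := nqt (F v) (ϖ v) ϖq (hloc v hv) hq hq2 (hna v hv) (hnorm v hv) (w v)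
          (hw v hv).1 (O v) (hw v hv).2.1 (hw v hv).2.2
        exact ⟨e, fun _ => he⟩
      · exact ⟨1, fun h => absurd h hv⟩
    choose ev hev using h1
    refine ⟨∏ v ∈ S, ev v, ?_, ?_⟩
    · rw [hq.dvd_finsetProd_iff]
      rintro ⟨v, hv, hdv⟩
      exact (hev v hv).1 hdv
    · intro n hn v hv
      exact (hev v hv).2 n ((Finset.dvd_prod_of_mem ev hv).trans hn)
  -- a multiple of `E` in the residue class of `n`
  have res : ∀ (N : ℕ) (E n : GaussianInt), ¬ ϖq ∣ E → ∃ n' x : GaussianInt, E ∣ n' ∧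
      n' - n = ϖq ^ N * x := by
    intro N E n hE
    obtain ⟨x, y, hxy⟩ := ((hq.irreducible.coprime_iff_not_dvd).2 hE).pow_left (m := N)
    refine ⟨n * y * E, -(n * x), ⟨n * y, by ring⟩, ?_⟩
    linear_combination n * hxy
  refine egn (fun a b c e => ∀ (N : ℕ) (u : ∀ v, F v × F v × F v) (O : ∀ v, Set (F v × F v × F v)),
      (∀ v ∈ S, OnU (u v) ∧ IsOpen (O v) ∧ u v ∈ O v) →
      ∃ a' b' c' e' : GaussianInt, a' * e' - b' * c' = 1 ∧ ϖq ^ N ∣ a' - a ∧ ϖq ^ N ∣ b' - b ∧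
        ϖq ^ N ∣ c' - c ∧ ϖq ^ N ∣ e' - e ∧
        ∀ v ∈ S, ∃ w ∈ O v, Step (.act a' b' c' e') (u v) w) ?_ ?_ ?_ a b c e hd N u O hu
  · intro N u O hu
    obtain ⟨E, _, hE⟩ := com u O hu
    refine ⟨1, 0, 0, 1, by ring, by simp, by simp, by simp, by simp, fun v hv => ?_⟩
    obtain ⟨w, hw, hs⟩ := (hE 0 (dvd_zero _) v hv).1
    exact ⟨w, hw, hs⟩
  · intro a b c e n hp N u O hu
    obtain ⟨a', b', c', e', hd', ⟨xa, ha⟩, ⟨xb, hb⟩, ⟨xc, hc⟩, ⟨xe, he⟩, hs⟩ := hp N u O hu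
    have h1 : ∀ v, ∃ w, v ∈ S → w ∈ O v ∧ Step (.act a' b' c' e') (u v) w := by
      intro v
      by_cases hv : v ∈ S
      · obtain ⟨w, hw⟩ := hs v hv
        exact ⟨w, fun _ => hw⟩
      · exact ⟨(0, 0, 0), fun h => absurd h hv⟩
    choose w hw using h1
    obtain ⟨E, hE0, hE⟩ := com w O (fun v hv => ⟨(hw v hv).2.2.1, (hu v hv).2.1, (hw v hv).1⟩)
    obtain ⟨n', x, hn', hx⟩ := res N E n hE0
    refine ⟨1 * a' + n' * c', 1 * b' + n' * e', 0 * a' + 1 * c', 0 * b' + 1 * e', ?_, ?_, ?_, ?_, ?_,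
      fun v hv => ?_⟩
    · linear_combination hd'
    · exact ⟨xa + n' * xc + x * c, by linear_combination ha + n' * hc + c * hx⟩
    · exact ⟨xb + n' * xe + x * e, by linear_combination hb + n' * he + e * hx⟩
    · exact ⟨xc, by linear_combination hc⟩
    · exact ⟨xe, by linear_combination he⟩
    · obtain ⟨z', hz', hst⟩ := (hE n' hn' v hv).1
      exact ⟨z', hz', cmp (F v) (two_ne (hloc v hv)) a' b' c' e' 1 n' 0 1 (u v) (w v) z'
        (hw v hv).2 hst⟩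
  · intro a b c e n hp N u O hu
    obtain ⟨a', b', c', e', hd', ⟨xa, ha⟩, ⟨xb, hb⟩, ⟨xc, hc⟩, ⟨xe, he⟩, hs⟩ := hp N u O hu
    have h1 : ∀ v, ∃ w, v ∈ S → w ∈ O v ∧ Step (.act a' b' c' e') (u v) w := by
      intro v
      by_cases hv : v ∈ S
      · obtain ⟨w, hw⟩ := hs v hv
        exact ⟨w, fun _ => hw⟩
      · exact ⟨(0, 0, 0), fun h => absurd h hv⟩
    choose w hw using h1
    obtain ⟨E, hE0, hE⟩ := com w O (fun v hv => ⟨(hw v hv).2.2.1, (hu v hv).2.1, (hw v hv).1⟩)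
    obtain ⟨n', x, hn', hx⟩ := res N E n hE0
    refine ⟨1 * a' + 0 * c', 1 * b' + 0 * e', n' * a' + 1 * c', n' * b' + 1 * e', ?_, ?_, ?_, ?_, ?_,
      fun v hv => ?_⟩
    · linear_combination hd'
    · exact ⟨xa, by linear_combination ha⟩
    · exact ⟨xb, by linear_combination hb⟩
    · exact ⟨xc + n' * xa + x * a, by linear_combination hc + n' * ha + a * hx⟩
    · exact ⟨xe + n' * xb + x * b, by linear_combination he + n' * hb + b * hx⟩
    · obtain ⟨z', hz', hst⟩ := (hE n' hn' v hv).2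
      exact ⟨z', hz', cmp (F v) (two_ne (hloc v hv)) a' b' c' e' 1 0 n' 1 (u v) (w v) z'
        (hw v hv).2 hst⟩

end Pool.Agent.WAP.H13
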